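import Mathlib

/-! Averages over operators: general lemmas. -/

set_option autoImplicit false
set_option linter.unusedSectionVars false

namespace Pool.Agent.H496.R11

open MeasureTheory Set
open scoped ComplexConjugate ENNReal

/-- The integral inequality of Minkowski in `ℂ^J`. -/
theorem gen_bound {Ω : Type*} [MeasurableSpace Ω] {τ : Measure Ω} {J : Type*} [Fintype J] {a : J → ℝ}
    (ha : ∀ j, 0 ≤ a j) {v : J → Ω → ℂ} (hv : ∀ j, Integrable (v j) τ) {b : Ω → ℝ} (hb : Integrable b τ)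
    {B : ℝ} (hB : 0 ≤ B) (hb0 : ∀ᵐ ω ∂τ, 0 ≤ b ω)
    (hle : ∀ᵐ ω ∂τ, ∑ j, a j * ‖v j ω‖ ^ 2 ≤ b ω ^ 2 * B) :
    ∑ j, a j * ‖∫ ω, v j ω ∂τ‖ ^ 2 ≤ (∫ ω, b ω ∂τ) ^ 2 * B := by
  classical
  set V : Ω → EuclideanSpace ℂ J := fun ω => WithLp.toLp 2 fun j => ((Real.sqrt (a j) : ℝ) : ℂ) * v j ω with hV
  have hVi : Integrable V τ := by
    have h1 : Integrable (fun ω => ∑ j, (((Real.sqrt (a j) : ℝ) : ℂ) * v j ω) • (EuclideanSpace.single j (1 : ℂ))) τ :=
      integrable_finsetSum _ fun j _ => ((hv j).const_mul _).smul_const _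
    refine h1.congr (Filter.Eventually.of_forall fun ω => ?_)
    ext i
    simp [hV, Pi.single_apply]
  have hc : ∀ j, (∫ ω, V ω ∂τ) j = ((Real.sqrt (a j) : ℝ) : ℂ) * ∫ ω, v j ω ∂τ := by
    intro j
    have h1 := (EuclideanSpace.proj (𝕜 := ℂ) j : EuclideanSpace ℂ J →L[ℂ] ℂ).integral_comp_comm hVi
    rw [← integral_const_mul]
    exact h1.symm
  have hn : ∀ w : J → ℂ, ‖(WithLp.toLp 2 fun j => ((Real.sqrt (a j) : ℝ) : ℂ) * w j : EuclideanSpace ℂ J)‖ ^ 2 =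
      ∑ j, a j * ‖w j‖ ^ 2 := by
    intro w
    rw [EuclideanSpace.norm_sq_eq]
    refine Finset.sum_congr rfl fun j _ => ?_
    show ‖((Real.sqrt (a j) : ℝ) : ℂ) * w j‖ ^ 2 = _
    rw [norm_mul, mul_pow, Complex.norm_real, Real.norm_of_nonneg (Real.sqrt_nonneg _), Real.sq_sqrt (ha j)]
  have h1 : ∑ j, a j * ‖∫ ω, v j ω ∂τ‖ ^ 2 = ‖∫ ω, V ω ∂τ‖ ^ 2 := by
    rw [← hn]
    congr 2
    ext j
    exact (hc j).symm
  have h2 : ‖∫ ω, V ω ∂τ‖ ≤ ∫ ω, b ω * Real.sqrt B ∂τ := by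
    refine norm_integral_le_of_norm_le (hb.mul_const _) ?_
    filter_upwards [hb0, hle] with ω h3 h4
    have h5 : ‖V ω‖ ^ 2 ≤ (b ω * Real.sqrt B) ^ 2 := by
      rw [hV, hn, mul_pow, Real.sq_sqrt hB]
      exact h4
    exact le_of_sq_le_sq h5 (mul_nonneg h3 (Real.sqrt_nonneg _))
  rw [h1]
  rw [integral_mul_const] at h2
  calc ‖∫ ω, V ω ∂τ‖ ^ 2 ≤ ((∫ ω, b ω ∂τ) * Real.sqrt B) ^ 2 := pow_le_pow_left₀ (norm_nonneg _) h2 2
    _ = _ := by rw [mul_pow, Real.sq_sqrt hB]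

variable {H : Type*} [Group H] [TopologicalSpace H] [IsTopologicalGroup H] [SecondCountableTopology H] [T2Space H]
  [MeasurableSpace H] [BorelSpace H]

/-- Exchange of an operator and of the Whittaker integral. -/
theorem fub {X Ω : Type*} [MeasurableSpace X] [MeasurableSpace Ω] {P : Measure X} [IsFiniteMeasure P]
    {τ : Measure Ω} [SFinite τ] {ψ : X → ℂ} (hψ : Measurable ψ) (hψ1 : ∀ u, ‖ψ u‖ ≤ 1) {s : X → H} (hs : Measurable s)
    {K : Set H} (hK : IsCompact K) (hsK : ∀ᵐ u ∂P, s u ∈ K) {f : H → ℂ} (hf : Continuous f) {c : Ω → ℂ}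
    (hc : Integrable c τ) {x : Ω → H} (hx : Measurable x) {K' : Set H} (hK' : IsCompact K')
    (hxK : ∀ ω, c ω ≠ 0 → x ω ∈ K') {z : ℂ} (hz : ∀ y, ∫ ω, c ω * f (y * x ω) ∂τ = z * f y) (g : H) :
    Integrable (fun ω => c ω * ∫ u, ψ u * f (s u * (g * x ω)) ∂P) τ ∧
      ∫ ω, c ω * ∫ u, ψ u * f (s u * (g * x ω)) ∂P ∂τ = z * ∫ u, ψ u * f (s u * g) ∂P := by
  set F : X × Ω → ℂ := fun p => c p.2 * (ψ p.1 * f (s p.1 * (g * x p.2))) with hF
  obtain ⟨M, hM⟩ := ((hK.prod hK').image (f := fun p : H × H => p.1 * (g * p.2)) (by fun_prop)).exists_bound_of_continuousOn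
    hf.continuousOn
  have hcm : AEStronglyMeasurable (fun p : X × Ω => c p.2) (P.prod τ) := hc.aestronglyMeasurable.comp_snd
  have hFm : AEStronglyMeasurable F (P.prod τ) := by
    refine hcm.mul (Measurable.aestronglyMeasurable ?_)
    exact (hψ.comp measurable_fst).mul (hf.measurable.comp
      ((hs.comp measurable_fst).mul (measurable_const.mul (hx.comp measurable_snd))))
  have hFi : Integrable F (P.prod τ) := by
    have h1 : Integrable (fun p : X × Ω => |M| * ‖c p.2‖) (P.prod τ) := (hc.norm.comp_snd P).const_mul _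
    refine h1.mono hFm ?_
    have h2 := (Measure.quasiMeasurePreserving_fst (μ := P) (ν := τ)).ae hsK
    filter_upwards [h2] with p hp
    rw [Real.norm_of_nonneg (by positivity), hF]
    dsimp only
    by_cases h0 : c p.2 = 0
    · rw [h0, zero_mul, norm_zero, mul_zero]
    · rw [norm_mul, norm_mul, mul_comm]
      refine mul_le_mul_of_nonneg_right ?_ (norm_nonneg _)
      have h3 := (hM _ ⟨(s p.1, x p.2), ⟨hp, hxK _ h0⟩, rfl⟩).trans (le_abs_self M)
      calc ‖ψ p.1‖ * ‖f (s p.1 * (g * x p.2))‖ ≤ 1 * |M| := mul_le_mul (hψ1 _) h3 (norm_nonneg _) zero_le_one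
        _ = |M| := one_mul _
  have e1 : ∀ ω, ∫ u, F (u, ω) ∂P = c ω * ∫ u, ψ u * f (s u * (g * x ω)) ∂P := fun ω => by
    rw [← integral_const_mul]
  have e2 : ∀ u, ∫ ω, F (u, ω) ∂τ = z * (ψ u * f (s u * g)) := fun u => by
    have h1 : ∀ ω, F (u, ω) = ψ u * (c ω * f (s u * g * x ω)) := fun ω => by
      rw [hF]
      dsimp only
      rw [mul_assoc (s u) g]
      ring
    simp_rw [h1]
    rw [integral_const_mul, hz]
    ring
  refine ⟨?_, ?_⟩
  · have := hFi.integral_prod_right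
    refine this.congr (Filter.Eventually.of_forall fun ω => e1 ω)
  · have h1 := integral_integral_swap (μ := P) (ν := τ) (f := fun u ω => F (u, ω)) hFi
    simp_rw [e1, e2] at h1
    rw [← h1, integral_const_mul]

end Pool.Agent.H496.R11
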